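import Pool.Agent.Helper27.BG.St3

/-!
# Project BG, module PTW: the new pointwise inequality
-/

set_option autoImplicit false

namespace Pool.Agent.Helper27.BG

open Finset

private lemma ioc_PTW (J τ : ℕ) (c : ℕ → ℝ) :
    ∑ m ∈ Ioc τ J, c m = ∑ m ∈ Icc 1 J, if τ < m then c m else 0 := by
  rw [← Finset.sum_filter]
  refine Finset.sum_congr ?_ fun _ _ => rfl
  ext m
  simp only [Finset.mem_Ioc, Finset.mem_filter, Finset.mem_Icc]
  omega

private lemma ico_PTW (J j : ℕ) (hj : j ∈ Icc 1 J) (c : ℕ → ℝ) :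
    ∑ m ∈ Ico 1 j, c m = ∑ m ∈ Icc 1 J, if m < j then c m else 0 := by
  rw [← Finset.sum_filter]
  refine Finset.sum_congr ?_ fun _ _ => rfl
  rw [Finset.mem_Icc] at hj
  ext m
  simp only [Finset.mem_Ico, Finset.mem_filter, Finset.mem_Icc]
  omega

/-- summation by parts in two variables -/
private lemma parts_PTW (J : ℕ) (M b c : ℕ → ℝ) (h0 : M 0 = 0) :
    ∑ τ ∈ range J, (M (τ + 1) - M τ) * ((∑ j ∈ Ioc τ J, b j) * ∑ m ∈ Ioc τ J, c m) =
      ∑ j ∈ Icc 1 J, ∑ m ∈ Icc 1 J, b j * c m * M (min j m) := by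
  have h1 : ∀ τ ∈ range J, (M (τ + 1) - M τ) * ((∑ j ∈ Ioc τ J, b j) * ∑ m ∈ Ioc τ J, c m) =
      ∑ j ∈ Icc 1 J, ∑ m ∈ Icc 1 J,
        b j * c m * (if τ < min j m then (M (τ + 1) - M τ) else 0) := by
    intro τ _
    rw [ioc_PTW, ioc_PTW, Finset.sum_mul_sum, Finset.mul_sum]
    refine Finset.sum_congr rfl fun j _ => ?_
    rw [Finset.mul_sum]
    refine Finset.sum_congr rfl fun m _ => ?_
    by_cases hj : τ < j
    · by_cases hm : τ < m
      · rw [if_pos hj, if_pos hm, if_pos (lt_min hj hm)]; ring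
      · rw [if_neg hm, if_neg (fun h => hm (lt_of_lt_of_le h (min_le_right _ _)))]; ring
    · rw [if_neg hj, if_neg (fun h => hj (lt_of_lt_of_le h (min_le_left _ _)))]; ring
  rw [Finset.sum_congr rfl h1, Finset.sum_comm]
  refine Finset.sum_congr rfl fun j hj => ?_
  rw [Finset.sum_comm]
  refine Finset.sum_congr rfl fun m hm => ?_
  rw [← Finset.mul_sum]
  congr 1
  rw [← Finset.sum_filter]
  have h2 : (range J).filter (fun τ => τ < min j m) = range (min j m) := by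
    rw [Finset.mem_Icc] at hj hm
    ext τ
    simp only [Finset.mem_filter, Finset.mem_range, lt_min_iff]
    omega
  rw [h2, Finset.sum_range_sub, h0, sub_zero]

/-- the double sum with the missing correlations -/
private lemma dbl_PTW (J : ℕ) (M b c : ℕ → ℝ) (h0 : M 0 = 0) :
    ∑ τ ∈ range J, (M (τ + 1) - M τ) * ((∑ j ∈ Ioc τ J, b j) * ∑ m ∈ Ioc τ J, c m) +
      ∑ j ∈ Icc 1 J, ∑ m ∈ Ico 1 j, b j * (M j - M m) * c m =
      (∑ j ∈ Icc 1 J, b j * M j) * ∑ m ∈ Icc 1 J, c m := by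
  rw [parts_PTW J M b c h0, ← Finset.sum_add_distrib, Finset.sum_mul_sum]
  refine Finset.sum_congr rfl fun j hj => ?_
  rw [ico_PTW J j hj, ← Finset.sum_add_distrib]
  refine Finset.sum_congr rfl fun m _ => ?_
  by_cases h : m < j
  · rw [if_pos h, min_eq_right h.le]; ring
  · rw [if_neg h, min_eq_left (not_lt.1 h)]; ring

theorem hPtw : StPtw := by
  intro J N β γ α κ hκ hN0 hN
  have hκ0 : 0 < κ := by linarith
  have hκ1 : 0 < κ - 1 := by linarith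
  have hNn : ∀ j, 0 ≤ N j := fun j => by rw [← hN0]; exact hN (Nat.zero_le j)
  have hden : ∀ j, (κ - 1) * (1 + N j) ≠ 0 := fun j => by
    have := hNn j
    positivity
  -- coefficients
  obtain ⟨M, hM⟩ : ∃ M : ℕ → ℝ, M = fun j => (κ - 1) / κ * N j := ⟨_, rfl⟩
  obtain ⟨e, he⟩ : ∃ e : ℕ → ℝ, e = fun j => 1 / ((κ - 1) * (1 + N j)) * β j := ⟨_, rfl⟩
  have hM0 : M 0 = 0 := by rw [hM]; simp [hN0]
  have hdbl := dbl_PTW J M (fun j => κ * e j) γ hM0
  -- the slack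
  have hs : ∀ τ ∈ range J, -((κ - 1) / κ * (N (τ + 1) - N τ) *
      ((∑ j ∈ Ioc τ J, γ j - ∑ j ∈ Ioc τ J, e j) ^ 2 +
       ((κ - 1) ^ 2 - 1) * (∑ j ∈ Ioc τ J, e j) ^ 2)) ≤
      2 * ((M (τ + 1) - M τ) * ((∑ j ∈ Ioc τ J, κ * e j) * ∑ m ∈ Ioc τ J, γ m)) := by
    intro τ _
    rw [← Finset.mul_sum]
    have h1 : 0 ≤ N (τ + 1) - N τ := sub_nonneg.2 (hN (Nat.le_succ τ))
    have h2 : 0 ≤ (κ - 1) / κ * (N (τ + 1) - N τ) := by positivity
    have h3 : M (τ + 1) - M τ = (κ - 1) / κ * (N (τ + 1) - N τ) := by rw [hM]; ring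
    rw [h3]
    have h4 := mul_nonneg h2 (sq_nonneg (∑ j ∈ Ioc τ J, γ j + (κ - 1) * ∑ j ∈ Ioc τ J, e j))
    nlinarith [h4]
  have hsum := Finset.sum_le_sum hs
  rw [Finset.sum_neg_distrib, ← Finset.mul_sum] at hsum
  -- rewrite the sums of the statement
  have hz : ∑ j ∈ Icc 1 J, (κ * e j) * M j = ∑ j ∈ Icc 1 J, N j / (1 + N j) * β j := by
    refine Finset.sum_congr rfl fun j _ => ?_
    rw [he, hM]
    have := hNn j
    have h5 : (1 + N j) ≠ 0 := by positivity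
    field_simp
  have hc : ∑ j ∈ Icc 1 J, ∑ m ∈ Ico 1 j, κ / ((κ - 1) * (1 + N j)) *
      ((κ - 1) / κ * (N j - N m)) * (β j * γ m) =
      ∑ j ∈ Icc 1 J, ∑ m ∈ Ico 1 j, (κ * e j) * (M j - M m) * γ m := by
    refine Finset.sum_congr rfl fun j _ => Finset.sum_congr rfl fun m _ => ?_
    rw [he, hM]
    ring
  have he2 : ∀ τ, ∑ j ∈ Ioc τ J, 1 / ((κ - 1) * (1 + N j)) * β j = ∑ j ∈ Ioc τ J, e j := by
    intro τ; rw [he]
  rw [hz] at hdbl
  rw [hc]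
  simp only [he2]
  generalize (∑ j ∈ Icc 1 J, N j / (1 + N j) * β j) = zb at *
  generalize (∑ j ∈ Icc 1 J, β j) = sb at *
  generalize (∑ j ∈ Icc 1 J, γ j) = sg at *
  generalize (∑ j ∈ Icc 1 J, ∑ m ∈ Ico 1 j, (κ * e j) * (M j - M m) * γ m) = X1 at *
  generalize (∑ τ ∈ range J, (M (τ + 1) - M τ) * ((∑ j ∈ Ioc τ J, κ * e j) *
    ∑ m ∈ Ioc τ J, γ m)) = X2 at *
  nlinarith [sq_nonneg (α + sb + sg - (α + zb))]

end Pool.Agent.Helper27.BG
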